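import Pool.Agent.N912.MS.Stm
import Pool.Agent.W191.GA.Sparse

/-!
# Project MS (helper912), part MS7: large sieve for sparse sets of frequencies (helper492)

The average of the sharp cutoffs `N z ≤ e ^ (2 + τ) Z` over `τ` in `[0, 1]` gives the smooth weight.
-/

set_option autoImplicit false

namespace Pool.Agent.N492.MS

open Finset Filter
open Pool.Agent.H376R2.MR (ch)
open Pool.Agent.W78.GA
open Pool.Agent.N912.MS

theorem hD : (0 : ℤ) ^ 2 < 4 * 1 := by norm_num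

theorem ch_sub (k l : ℤ) (x : ℝ) : ch (k - l) x = ch k x * (starRingEnd ℂ) (ch l x) := by
  unfold ch
  rw [← Complex.exp_conj, ← Complex.exp_add, map_mul, map_neg, Complex.conj_ofReal,
    Complex.conj_I]
  congr 1
  push_cast
  ring

theorem chi_sub {z : Gi} (hz : z ≠ 0) (κ κ' : ℤ × ℤ) :
    chi (κ - κ') z = chi κ z * (starRingEnd ℂ) (chi κ' z) := by
  unfold chi
  rw [Prod.fst_sub, Prod.snd_sub, ch_sub, map_mul, conj_ps hD hz, sub_eq_add_neg, ps_add hD hz]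
  ring

/-- The main term. -/
noncomputable def Mt (κ : ℤ × ℤ) (X : ℝ) : ℂ :=
  if κ.1 = 0 then (Real.pi : ℂ) * (X : ℂ) ^ (1 - κ.2 * Complex.I) / (1 - κ.2 * Complex.I) else 0

/-- Expansion of the square. -/
theorem expand {b : Finset Gi} (hb : ∀ z ∈ b, z ≠ 0) (U : Finset (ℤ × ℤ)) (c : ℤ × ℤ → ℂ) :
    ((∑ z ∈ b, ‖∑ κ ∈ U, c κ * chi κ z‖ ^ 2 : ℝ) : ℂ) =
      ∑ κ ∈ U, ∑ κ' ∈ U, c κ * (starRingEnd ℂ) (c κ') * ∑ z ∈ b, chi (κ - κ') z := by
  push_cast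
  have e1 : ∀ z ∈ b, ((‖∑ κ ∈ U, c κ * chi κ z‖ : ℝ) : ℂ) ^ 2 =
      ∑ κ ∈ U, ∑ κ' ∈ U, c κ * (starRingEnd ℂ) (c κ') * chi (κ - κ') z := by
    intro z hz
    have e2 : ((‖∑ κ ∈ U, c κ * chi κ z‖ : ℝ) : ℂ) ^ 2 =
        (∑ κ ∈ U, c κ * chi κ z) * (starRingEnd ℂ) (∑ κ ∈ U, c κ * chi κ z) := by
      rw [Complex.mul_conj, Complex.normSq_eq_norm_sq]
      push_cast
      rfl
    rw [e2, map_sum, Finset.sum_mul_sum]
    refine Finset.sum_congr rfl fun k _ => Finset.sum_congr rfl fun l _ => ?_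
    rw [map_mul, chi_sub (hb z hz)]
    ring
  rw [Finset.sum_congr rfl e1, Finset.sum_comm]
  refine Finset.sum_congr rfl fun k _ => ?_
  rw [Finset.sum_comm]
  exact Finset.sum_congr rfl fun l _ => by rw [Finset.mul_sum]

/-- The expansion with the main terms. -/
theorem expand_le {b : Finset Gi} (hb : ∀ z ∈ b, z ≠ 0) (U : Finset (ℤ × ℤ)) (c : ℤ × ℤ → ℂ)
    (X E : ℝ) (hE0 : 0 ≤ E)
    (hE : ∀ κ ∈ U, ∀ κ' ∈ U, ‖∑ z ∈ b, chi (κ - κ') z - Mt (κ - κ') X‖ ≤ E) :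
    ∑ z ∈ b, ‖∑ κ ∈ U, c κ * chi κ z‖ ^ 2 ≤
      (∑ κ ∈ U, ∑ κ' ∈ U, c κ * (starRingEnd ℂ) (c κ') * Mt (κ - κ') X).re +
        U.card * E * ∑ κ ∈ U, ‖c κ‖ ^ 2 := by
  set A : ℝ := ∑ z ∈ b, ‖∑ κ ∈ U, c κ * chi κ z‖ ^ 2 with hA
  set M : ℂ := ∑ κ ∈ U, ∑ κ' ∈ U, c κ * (starRingEnd ℂ) (c κ') * Mt (κ - κ') X with hM
  have h1 : (A : ℂ) - M = ∑ κ ∈ U, ∑ κ' ∈ U, c κ * (starRingEnd ℂ) (c κ') *
      (∑ z ∈ b, chi (κ - κ') z - Mt (κ - κ') X) := by
    rw [hA, expand hb, hM, ← Finset.sum_sub_distrib]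
    refine Finset.sum_congr rfl fun k _ => ?_
    rw [← Finset.sum_sub_distrib]
    exact Finset.sum_congr rfl fun l _ => by ring
  have h2 : ‖(A : ℂ) - M‖ ≤ E * (∑ κ ∈ U, ‖c κ‖) ^ 2 := by
    rw [h1]
    have h3 : E * (∑ κ ∈ U, ‖c κ‖) ^ 2 = ∑ κ ∈ U, ∑ κ' ∈ U, ‖c κ‖ * ‖c κ'‖ * E := by
      rw [pow_two, Finset.sum_mul_sum, Finset.mul_sum]
      refine Finset.sum_congr rfl fun k _ => ?_
      rw [Finset.mul_sum]
      exact Finset.sum_congr rfl fun l _ => by ring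
    rw [h3]
    refine (norm_sum_le _ _).trans (Finset.sum_le_sum fun k hk => ?_)
    refine (norm_sum_le _ _).trans (Finset.sum_le_sum fun l hl => ?_)
    rw [norm_mul, norm_mul, RCLike.norm_conj]
    exact mul_le_mul_of_nonneg_left (hE k hk l hl) (by positivity)
  have h4 : (∑ k ∈ U, ‖c k‖) ^ 2 ≤ (U.card : ℝ) * ∑ k ∈ U, ‖c k‖ ^ 2 := sq_sum_le_card_mul_sum_sq
  have h5 := mul_le_mul_of_nonneg_left h4 hE0
  have h6 : A - M.re ≤ ‖(A : ℂ) - M‖ := by
    have h7 := Complex.re_le_norm ((A : ℂ) - M)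
    rwa [Complex.sub_re, Complex.ofReal_re] at h7
  nlinarith

/-- The coefficients of the main terms. -/
noncomputable def Gc (κ : ℤ × ℤ) (L : ℝ) : ℂ :=
  if κ.1 = 0 then (Real.pi : ℂ) * Complex.exp (L * (1 - κ.2 * Complex.I)) /
    (1 - κ.2 * Complex.I) else 0

theorem Mt_exp (κ : ℤ × ℤ) (L τ : ℝ) :
    Mt κ (Real.exp (L + τ)) = Gc κ L * Complex.exp ((1 - κ.2 * Complex.I) * τ) := by
  unfold Mt Gc
  split_ifs with h
  · have h1 : ((Real.exp (L + τ) : ℝ) : ℂ) ^ (1 - κ.2 * Complex.I) =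
        Complex.exp (L * (1 - κ.2 * Complex.I)) * Complex.exp ((1 - κ.2 * Complex.I) * τ) := by
      rw [← Complex.exp_add, Complex.cpow_def_of_ne_zero (by
        exact_mod_cast (Real.exp_pos _).ne'), ← Complex.ofReal_log (Real.exp_pos _).le,
        Real.log_exp]
      congr 1
      push_cast
      ring
    rw [h1]
    ring
  · rw [zero_mul]

theorem re_a (l : ℤ) : (1 - (l : ℂ) * Complex.I).re = 1 := by simp

theorem norm_a_sq (l : ℤ) : ‖(1 : ℂ) - (l : ℂ) * Complex.I‖ ^ 2 = 1 + (l : ℝ) ^ 2 := by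
  rw [← Complex.normSq_eq_norm_sq, Complex.normSq_apply]
  simp
  ring

theorem a_ne (l : ℤ) : (1 : ℂ) - (l : ℂ) * Complex.I ≠ 0 := by
  intro h
  have h1 := re_a l
  rw [h] at h1
  simp at h1

/-- The averages of the main terms. -/
theorem norm_int_le (κ : ℤ × ℤ) (L : ℝ) :
    ‖Gc κ L * ((Complex.exp (1 - κ.2 * Complex.I) - 1) / (1 - κ.2 * Complex.I))‖ ≤
      Real.pi * Real.exp L * (Real.exp 1 + 1) *
        (if κ.1 = 0 then 1 / (1 + (κ.2 : ℝ) ^ 2) else 0) := by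
  unfold Gc
  split_ifs with h
  · rw [norm_mul, norm_div, norm_div, norm_mul, Complex.norm_exp, Complex.norm_real,
      Real.norm_of_nonneg Real.pi_pos.le]
    have h1 : ((L : ℂ) * (1 - (κ.2 : ℂ) * Complex.I)).re = L := by simp
    have h2 : ‖Complex.exp (1 - (κ.2 : ℂ) * Complex.I) - 1‖ ≤ Real.exp 1 + 1 := by
      refine (norm_sub_le _ _).trans ?_
      rw [Complex.norm_exp, re_a, norm_one]
    have h3 : (0 : ℝ) < ‖(1 : ℂ) - (κ.2 : ℂ) * Complex.I‖ := norm_pos_iff.2 (a_ne _)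
    rw [h1]
    have h4 : Real.pi * Real.exp L / ‖(1 : ℂ) - (κ.2 : ℂ) * Complex.I‖ *
        (‖Complex.exp (1 - (κ.2 : ℂ) * Complex.I) - 1‖ / ‖(1 : ℂ) - (κ.2 : ℂ) * Complex.I‖) =
        Real.pi * Real.exp L * ‖Complex.exp (1 - (κ.2 : ℂ) * Complex.I) - 1‖ *
          (1 / (1 + (κ.2 : ℝ) ^ 2)) := by
      rw [← norm_a_sq]
      field_simp
    rw [h4]
    gcongr
  · simp

theorem summable_inv : Summable fun m : ℤ => 1 / (1 + (m : ℝ) ^ 2) := by
  have h1 : Summable fun m : ℤ => 1 / (m : ℝ) ^ 2 := Real.summable_one_div_int_pow.2 (by norm_num)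
  have h2 : Summable fun m : ℤ => if m = 0 then (1 : ℝ) else 0 :=
    (hasSum_ite_eq 0 (1 : ℝ)).summable
  refine Summable.of_nonneg_of_le (fun m => by positivity) (fun m => ?_) (h1.add h2)
  by_cases hm : m = 0
  · simp [hm]
  · have hm' : (0 : ℝ) < (m : ℝ) ^ 2 := by
      have : (m : ℝ) ≠ 0 := by exact_mod_cast hm
      positivity
    rw [if_neg hm, add_zero]
    exact one_div_le_one_div_of_le hm' (by linarith)

/-- The row sums. -/
theorem row (U : Finset (ℤ × ℤ)) (κ : ℤ × ℤ) :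
    ∑ κ' ∈ U, (if (κ - κ').1 = 0 then 1 / (1 + (((κ - κ').2 : ℤ) : ℝ) ^ 2) else 0) ≤
      ∑' m : ℤ, 1 / (1 + (m : ℝ) ^ 2) := by
  classical
  rw [← Finset.sum_filter]
  have h1 : Set.InjOn (fun κ' : ℤ × ℤ => (κ - κ').2)
      (U.filter (fun κ' => (κ - κ').1 = 0) : Finset (ℤ × ℤ)) := by
    intro x hx y hy hxy
    have hx' := (Finset.mem_filter.1 (Finset.mem_coe.1 hx)).2
    have hy' := (Finset.mem_filter.1 (Finset.mem_coe.1 hy)).2
    simp only [Prod.fst_sub, Prod.snd_sub] at hx' hy' hxy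
    refine Prod.ext ?_ ?_ <;> omega
  rw [← Finset.sum_image (f := fun m : ℤ => 1 / (1 + (m : ℝ) ^ 2)) h1]
  exact summable_inv.sum_le_tsum _ (fun m _ => by positivity)

/-- The lemma of Schur. -/
theorem schur {ι : Type} (U : Finset ι) (φ : ι → ι → ℝ) (hφ : ∀ i j, 0 ≤ φ i j)
    (hs : ∀ i j, φ i j = φ j i) (D : ℝ) (hD : ∀ i, ∑ j ∈ U, φ i j ≤ D) (c : ι → ℝ) :
    ∑ i ∈ U, ∑ j ∈ U, c i * c j * φ i j ≤ D * ∑ i ∈ U, c i ^ 2 := by
  have h1 : ∑ i ∈ U, ∑ j ∈ U, c i * c j * φ i j ≤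
      ∑ i ∈ U, ∑ j ∈ U, (c i ^ 2 * φ i j / 2 + c j ^ 2 * φ j i / 2) := by
    refine Finset.sum_le_sum fun i _ => Finset.sum_le_sum fun j _ => ?_
    rw [hs j i]
    nlinarith [hφ i j, mul_nonneg (sq_nonneg (c i - c j)) (hφ i j)]
  refine h1.trans ?_
  have h2 : ∑ i ∈ U, ∑ j ∈ U, (c i ^ 2 * φ i j / 2 + c j ^ 2 * φ j i / 2) =
      ∑ i ∈ U, c i ^ 2 * ∑ j ∈ U, φ i j := by
    simp only [Finset.sum_add_distrib]
    have h3 : ∑ i ∈ U, ∑ j ∈ U, c j ^ 2 * φ j i / 2 = ∑ i ∈ U, ∑ j ∈ U, c i ^ 2 * φ i j / 2 :=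
      Finset.sum_comm
    rw [h3, ← Finset.sum_add_distrib]
    refine Finset.sum_congr rfl fun i _ => ?_
    rw [← Finset.sum_add_distrib, Finset.mul_sum]
    exact Finset.sum_congr rfl fun j _ => by ring
  rw [h2, Finset.mul_sum]
  refine Finset.sum_le_sum fun i _ => ?_
  rw [mul_comm]
  exact mul_le_mul_of_nonneg_right (hD i) (sq_nonneg _)

/-- **MS7** -/
theorem sparse2 (h : S_EXP2) : S_SPARSE2 := by
  obtain ⟨η, hη, hη2, C, hC, hE⟩ := h 2
  have hD0 : 0 ≤ ∑' m : ℤ, 1 / (1 + (m : ℝ) ^ 2) := tsum_nonneg fun m => by positivity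
  refine ⟨η, hη, Real.pi * Real.exp 2 * (Real.exp 1 + 1) * (∑' m : ℤ, 1 / (1 + (m : ℝ) ^ 2)) +
    C * Real.exp 3, by positivity, 1, ?_⟩
  intro Z hZ U hU hcard s a hs
  have hZ0 : 0 < Z := by linarith
  unfold DP2
  refine Pool.Agent.W191.GA.dual U s chi a _ ?_ (by positivity)
  intro c
  set B : ℝ := ∑ z ∈ s, ‖∑ κ ∈ U, c κ * chi κ z‖ ^ 2 with hB
  set N : ℝ := ∑ κ ∈ U, ‖c κ‖ ^ 2 with hN
  have hN0 : 0 ≤ N := Finset.sum_nonneg fun _ _ => by positivity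
  set L : ℝ := 2 + Real.log Z with hL
  have hexp : ∀ τ : ℝ, Real.exp (L + τ) = Real.exp (2 + τ) * Z := by
    intro τ
    rw [hL, show 2 + Real.log Z + τ = (2 + τ) + Real.log Z by ring, Real.exp_add,
      Real.exp_log hZ0]
  -- the pointwise inequality
  have key : ∀ τ : ℝ, τ ∈ Set.Icc (0 : ℝ) 1 → B - C * Real.exp 3 * Z * N ≤
      (∑ κ ∈ U, ∑ κ' ∈ U, c κ * (starRingEnd ℂ) (c κ') *
        (Gc (κ - κ') L * Complex.exp ((1 - (((κ - κ').2 : ℤ) : ℂ) * Complex.I) * τ))).re := by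
    intro τ hτ
    have hX : 1 ≤ Real.exp (L + τ) := by
      rw [Real.one_le_exp_iff, hL]
      have := Real.log_nonneg hZ
      linarith [hτ.1]
    have hXZ : Real.exp 2 * Z ≤ Real.exp (L + τ) := by
      rw [hexp]
      exact mul_le_mul_of_nonneg_right (Real.exp_le_exp.2 (by linarith [hτ.1])) hZ0.le
    have hXZ' : Real.exp (L + τ) ≤ Real.exp 3 * Z := by
      rw [hexp]
      exact mul_le_mul_of_nonneg_right (Real.exp_le_exp.2 (by linarith [hτ.2])) hZ0.le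
    have hsub : s ⊆ ball 0 1 (Real.exp (L + τ)) := by
      intro z hz
      have h1 := (mem_win hD).1 (hs hz)
      rw [mem_ball hD]
      exact ⟨h1.1, h1.2.2.trans hXZ⟩
    have h1 : B ≤ ∑ z ∈ ball 0 1 (Real.exp (L + τ)), ‖∑ κ ∈ U, c κ * chi κ z‖ ^ 2 :=
      Finset.sum_le_sum_of_subset_of_nonneg hsub fun _ _ _ => by positivity
    have hfreq : ∀ κ ∈ U, ∀ κ' ∈ U, (nrm (κ - κ') : ℝ) ≤ Real.exp (L + τ) ^ 2 := by
      intro κ hκ κ' hκ'
      have e1 := hU κ hκ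
      have e2 := hU κ' hκ'
      have e3 : Z ^ (4 / 3 : ℝ) ≤ Z ^ 2 := by
        rw [← Real.rpow_two]
        exact Real.rpow_le_rpow_of_exponent_le hZ (by norm_num)
      unfold nrm at e1 e2 ⊢
      rw [Int.cast_max] at e1 e2 ⊢
      have f1 := (max_le_iff.1 e1).1
      have f2 := (max_le_iff.1 e1).2
      have f3 := (max_le_iff.1 e2).1
      have f4 := (max_le_iff.1 e2).2
      have e4 : 2 * Z ≤ Real.exp (L + τ) := by
        refine le_trans (mul_le_mul_of_nonneg_right ?_ hZ0.le) hXZ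
        have := Real.add_one_le_exp (2 : ℝ)
        linarith
      have e5 : 4 * Z ^ 2 ≤ Real.exp (L + τ) ^ 2 := by nlinarith
      push_cast at f1 f2 f3 f4 ⊢
      rw [Prod.fst_sub, Prod.snd_sub]
      push_cast
      refine max_le ?_ ?_
      · nlinarith [sq_nonneg ((κ.1 : ℝ) + κ'.1)]
      · nlinarith [sq_nonneg ((κ.2 : ℝ) + κ'.2)]
    have hErr : ∀ κ ∈ U, ∀ κ' ∈ U, ‖∑ z ∈ ball 0 1 (Real.exp (L + τ)), chi (κ - κ') z -
        Mt (κ - κ') (Real.exp (L + τ))‖ ≤ C * Real.exp 3 * Z ^ (1 - η) := by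
      intro κ hκ κ' hκ'
      have e1 := hE (Real.exp (L + τ)) (κ - κ') hX (hfreq κ hκ κ' hκ')
      have e2 : ‖∑ z ∈ ball 0 1 (Real.exp (L + τ)), chi (κ - κ') z -
          Mt (κ - κ') (Real.exp (L + τ))‖ ≤ C * Real.exp (L + τ) ^ (1 - η) := by
        unfold Mt
        split_ifs with h0
        · exact e1.2 h0
        · rw [sub_zero]
          exact e1.1 h0
      refine e2.trans ?_
      rw [mul_assoc]
      refine mul_le_mul_of_nonneg_left ?_ hC.le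
      have e3 : Real.exp (L + τ) ^ (1 - η) ≤ (Real.exp 3 * Z) ^ (1 - η) :=
        Real.rpow_le_rpow (by positivity) hXZ' (by linarith)
      refine e3.trans ?_
      rw [Real.mul_rpow (by positivity) hZ0.le]
      refine mul_le_mul_of_nonneg_right ?_ (by positivity)
      conv_rhs => rw [← Real.rpow_one (Real.exp 3)]
      exact Real.rpow_le_rpow_of_exponent_le (Real.one_le_exp (by norm_num)) (by linarith)
    have h2 := expand_le (fun z hz => (one_le_nm hD).1 ((mem_ball hD).1 hz).1) U c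
      (Real.exp (L + τ)) (C * Real.exp 3 * Z ^ (1 - η)) (by positivity) hErr
    have h3 : (U.card : ℝ) * (C * Real.exp 3 * Z ^ (1 - η)) ≤ C * Real.exp 3 * Z := by
      have e1 : (U.card : ℝ) * Z ^ (1 - η) ≤ Z := by
        refine (mul_le_mul_of_nonneg_right hcard (by positivity)).trans (le_of_eq ?_)
        rw [← Real.rpow_add hZ0]
        norm_num
      calc (U.card : ℝ) * (C * Real.exp 3 * Z ^ (1 - η))
          = C * Real.exp 3 * ((U.card : ℝ) * Z ^ (1 - η)) := by ring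
        _ ≤ C * Real.exp 3 * Z := mul_le_mul_of_nonneg_left e1 (by positivity)
    have h4 := mul_le_mul_of_nonneg_right h3 hN0
    simp only [Mt_exp] at h2
    linarith
  -- integration
  set f : ℝ → ℂ := fun τ => ∑ κ ∈ U, ∑ κ' ∈ U, c κ * (starRingEnd ℂ) (c κ') *
    (Gc (κ - κ') L * Complex.exp ((1 - (((κ - κ').2 : ℤ) : ℂ) * Complex.I) * τ)) with hf
  have hfc : Continuous f := by
    rw [hf]
    fun_prop
  have hint : ∫ τ in (0 : ℝ)..1, f τ = ∑ κ ∈ U, ∑ κ' ∈ U, c κ * (starRingEnd ℂ) (c κ') *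
      (Gc (κ - κ') L * ((Complex.exp (1 - (((κ - κ').2 : ℤ) : ℂ) * Complex.I) - 1) /
        (1 - (((κ - κ').2 : ℤ) : ℂ) * Complex.I))) := by
    rw [hf, intervalIntegral.integral_finsetSum (fun κ _ =>
      (Continuous.intervalIntegrable (by fun_prop) _ _))]
    refine Finset.sum_congr rfl fun κ _ => ?_
    rw [intervalIntegral.integral_finsetSum (fun κ' _ =>
      (Continuous.intervalIntegrable (by fun_prop) _ _))]
    refine Finset.sum_congr rfl fun κ' _ => ?_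
    rw [intervalIntegral.integral_const_mul, intervalIntegral.integral_const_mul,
      integral_exp_mul_complex (a_ne _)]
    simp
  have h1 : B - C * Real.exp 3 * Z * N ≤ (∫ τ in (0 : ℝ)..1, f τ).re := by
    have e1 : ∫ τ in (0 : ℝ)..1, (f τ).re = (∫ τ in (0 : ℝ)..1, f τ).re :=
      Complex.reCLM.intervalIntegral_comp_comm (hfc.intervalIntegrable _ _)
    rw [← e1]
    have e2 : ∫ _τ in (0 : ℝ)..1, (B - C * Real.exp 3 * Z * N) = B - C * Real.exp 3 * Z * N := by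
      simp
    rw [← e2]
    refine intervalIntegral.integral_mono_on (by norm_num) (by simp)
      ((Complex.continuous_re.comp hfc).intervalIntegrable _ _) fun τ hτ => ?_
    exact key τ hτ
  have h2 : (∫ τ in (0 : ℝ)..1, f τ).re ≤ Real.pi * Real.exp 2 * (Real.exp 1 + 1) *
      (∑' m : ℤ, 1 / (1 + (m : ℝ) ^ 2)) * Z * N := by
    refine (Complex.re_le_norm _).trans ?_
    rw [hint]
    have e1 : ∀ κ κ' : ℤ × ℤ, ‖c κ * (starRingEnd ℂ) (c κ') *
        (Gc (κ - κ') L * ((Complex.exp (1 - (((κ - κ').2 : ℤ) : ℂ) * Complex.I) - 1) /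
        (1 - (((κ - κ').2 : ℤ) : ℂ) * Complex.I)))‖ ≤
        Real.pi * Real.exp L * (Real.exp 1 + 1) * (‖c κ‖ * ‖c κ'‖ *
          (if (κ - κ').1 = 0 then 1 / (1 + (((κ - κ').2 : ℤ) : ℝ) ^ 2) else 0)) := by
      intro κ κ'
      rw [norm_mul, norm_mul, RCLike.norm_conj]
      refine (mul_le_mul_of_nonneg_left (norm_int_le (κ - κ') L) (by positivity)).trans
        (le_of_eq ?_)
      ring
    have e2 := schur U (fun κ κ' : ℤ × ℤ =>
      (if (κ - κ').1 = 0 then 1 / (1 + (((κ - κ').2 : ℤ) : ℝ) ^ 2) else 0))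
      (fun κ κ' => by positivity) (fun κ κ' => by
        have g1 : (κ - κ').1 = -(κ' - κ).1 := by simp
        have g2 : (κ - κ').2 = -(κ' - κ).2 := by simp
        rw [g1, g2]
        simp only [neg_eq_zero, Int.cast_neg, neg_sq])
      _ (fun κ => row U κ) (fun κ => ‖c κ‖)
    refine (norm_sum_le _ _).trans ((Finset.sum_le_sum fun κ _ => (norm_sum_le _ _).trans
      (Finset.sum_le_sum fun κ' _ => e1 κ κ')).trans ?_)
    simp only [← Finset.mul_sum] at e2 ⊢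
    have e3 : Real.exp L = Real.exp 2 * Z := by rw [hL, Real.exp_add, Real.exp_log hZ0]
    rw [e3]
    have e4 : (0 : ℝ) ≤ Real.pi * (Real.exp 2 * Z) * (Real.exp 1 + 1) := by positivity
    refine (mul_le_mul_of_nonneg_left e2 e4).trans (le_of_eq ?_)
    ring
  linarith

end Pool.Agent.N492.MS
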